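import Mathlib

/-!
# SL-S2: points over `ℚ_2` on `Y² = X (X² + 84 D X + 1792 D²)`, `D = 1 mod 4`, of all the odd classes
-/

set_option autoImplicit false

namespace Pool.Agent.N499.SL

open Polynomial

lemma norm_two' : ‖(2 : ℤ_[2])‖ = 1 / 2 := by
  have : (2 : ℤ_[2]) = ((2 : ℕ) : ℤ_[2]) := by norm_num
  rw [this, PadicInt.norm_p]
  norm_num

/-- units congruent to one modulo eight -/
lemma sq8 {t : ℤ_[2]} (h : ‖t - 1‖ ≤ 1 / 8) : ∃ w : ℤ_[2], w ^ 2 = t := by
  have h1 : ‖(X ^ 2 - C t : ℤ_[2][X]).aeval (1 : ℤ_[2])‖ <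
      ‖(X ^ 2 - C t : ℤ_[2][X]).derivative.aeval (1 : ℤ_[2])‖ ^ 2 := by
    have e1 : (X ^ 2 - C t : ℤ_[2][X]).aeval (1 : ℤ_[2]) = -(t - 1) := by
      simp
    have e2 : (X ^ 2 - C t : ℤ_[2][X]).derivative.aeval (1 : ℤ_[2]) = 2 := by
      simp
      norm_num
    rw [e1, e2, norm_neg, norm_two']
    refine h.trans_lt ?_
    norm_num
  obtain ⟨z, hz, -⟩ := hensels_lemma h1
  refine ⟨z, ?_⟩
  have : z ^ 2 - t = 0 := by simpa using hz
  exact sub_eq_zero.1 this

lemma mod8 {t : ℤ_[2]} {n : ℕ} (h : PadicInt.toZModPow n t = 0) : ‖t‖ ≤ (2 : ℝ) ^ (-n : ℤ) := by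
  have h2 : t ∈ RingHom.ker (PadicInt.toZModPow (p := 2) n) := h
  rw [PadicInt.ker_toZModPow, ← PadicInt.norm_le_pow_iff_mem_span_pow] at h2
  exact_mod_cast h2

lemma sq_res {t : ℤ_[2]} (h : PadicInt.toZModPow 3 t = 1) : ∃ w : ℤ_[2], w ^ 2 = t := by
  apply sq8
  have := mod8 (t := t - 1) (n := 3) (by rw [map_sub, h, map_one, sub_self])
  refine this.trans (le_of_eq ?_)
  norm_num

lemma cast8 {n : ℤ} {r : ℤ} (h : n % 8 = r) : ((n : ℤ) : ZMod (2 ^ 3)) = (r : ZMod (2 ^ 3)) := by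
  have e : n = 8 * (n / 8) + r := by omega
  rw [e]
  push_cast
  have : (8 : ZMod (2 ^ 3)) = 0 := by decide
  rw [this]
  ring

/-- the odd root -/
lemma root {B c : ℤ} (hB : B % 8 = 5) (hc : c % 8 = 0) : ∃ u : ℤ_[2], u ^ 2 + B * u + c = 0 ∧
    PadicInt.toZModPow 3 u = 3 := by
  have hB' : ((B : ℤ) : ZMod (2 ^ 3)) = 5 := cast8 hB
  have hc' : ((c : ℤ) : ZMod (2 ^ 3)) = 0 := by
    have := cast8 hc
    rwa [Int.cast_zero] at this
  obtain ⟨F, hF⟩ : ∃ F : ℤ_[2][X], F = X ^ 2 + C (B : ℤ_[2]) * X + C (c : ℤ_[2]) := ⟨_, rfl⟩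
  have e1 : F.aeval (3 : ℤ_[2]) = 9 + B * 3 + c := by
    rw [hF]
    simp only [map_add, map_mul, map_pow, aeval_X, aeval_C, Algebra.algebraMap_self_apply]
    norm_num
  have e2 : F.derivative.aeval (3 : ℤ_[2]) = 6 + B := by
    rw [hF]
    simp only [derivative_add, derivative_mul, derivative_X, derivative_C, derivative_X_pow,
      map_add, map_mul, map_pow, aeval_X, aeval_C, Algebra.algebraMap_self_apply, map_zero, map_one]
    norm_num
  have n1 : ‖(9 + B * 3 + c : ℤ_[2])‖ ≤ 1 / 8 := by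
    have := mod8 (t := (9 + B * 3 + c : ℤ_[2])) (n := 3) (by
      simp only [map_add, map_mul, map_ofNat, map_intCast, hB', hc']
      decide)
    refine this.trans (le_of_eq ?_)
    norm_num
  have n2 : ‖(6 + B : ℤ_[2])‖ = 1 := by
    rw [← PadicInt.isUnit_iff]
    have h3 : IsUnit (PadicInt.toZMod (p := 2) (6 + B : ℤ_[2])) := by
      have : PadicInt.toZMod (p := 2) (6 + B : ℤ_[2]) = 1 := by
        simp only [map_add, map_ofNat, map_intCast]
        have e : B = 2 * (B / 2) + 1 := by omega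
        rw [e]
        push_cast
        have h2 : (2 : ZMod 2) = 0 := by decide
        have h6 : (6 : ZMod 2) = 0 := by decide
        rw [h2, h6]
        ring
      rw [this]
      exact isUnit_one
    by_contra hcon
    have h4 : (6 + B : ℤ_[2]) ∈ IsLocalRing.maximalIdeal ℤ_[2] := by
      rwa [IsLocalRing.mem_maximalIdeal, mem_nonunits_iff]
    rw [← PadicInt.ker_toZMod, RingHom.mem_ker] at h4
    rw [h4] at h3
    exact not_isUnit_zero h3
  obtain ⟨z, hz, hz2, -⟩ := hensels_lemma (F := F) (a := (3 : ℤ_[2])) (by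
    rw [e1, e2, n2]
    refine n1.trans_lt ?_
    norm_num)
  rw [e2, n2] at hz2
  have hz' : z ^ 2 + B * z + c = 0 := by
    rw [hF] at hz
    simpa only [map_add, map_mul, map_pow, aeval_X, aeval_C, Algebra.algebraMap_self_apply]
      using hz
  refine ⟨z, hz', ?_⟩
  have h5 := congrArg (PadicInt.toZModPow (p := 2) 3) hz'
  simp only [map_add, map_mul, map_pow, map_intCast, map_zero, hB', hc'] at h5
  have h6 : ∀ t : ZMod (2 ^ 3), t ^ 2 + 5 * t + 0 = 0 → t = 0 ∨ t = 3 := by decide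
  rcases h6 _ h5 with h | h
  · exfalso
    have h7 := mod8 h
    have h8 : ‖(3 : ℤ_[2])‖ ≤ max ‖(3 - z : ℤ_[2])‖ ‖z‖ := by
      have := PadicInt.nonarchimedean (3 - z) z
      rwa [sub_add_cancel] at this
    have h9 : ‖(3 : ℤ_[2])‖ = 1 := by
      rw [← PadicInt.isUnit_iff]
      by_contra hcon
      have h4 : (3 : ℤ_[2]) ∈ IsLocalRing.maximalIdeal ℤ_[2] := by
        rwa [IsLocalRing.mem_maximalIdeal, mem_nonunits_iff]
      rw [← PadicInt.ker_toZMod, RingHom.mem_ker, map_ofNat] at h4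
      exact absurd h4 (by decide)
    rw [h9] at h8
    have h10 : ‖(3 - z : ℤ_[2])‖ < 1 := by
      rw [← norm_neg, neg_sub]
      exact hz2
    have h11 : ‖z‖ < 1 := h7.trans_lt (by norm_num)
    exact absurd h8 (not_le.2 (max_lt h10 h11))
  · exact h

lemma coe7 : ((7 : ℤ_[2]) : ℚ_[2]) = 7 := by
  have : (7 : ℤ_[2]) = ((7 : ℤ) : ℤ_[2]) := by norm_num
  rw [this, PadicInt.coe_intCast]
  norm_num

/-- the points -/
theorem pts (D d : ℤ) (hD : D % 4 = 1) (hd : ¬ (2 : ℤ) ∣ d) : ∃ X Y r : ℚ_[2], X ≠ 0 ∧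
    Y ^ 2 = X ^ 3 + 84 * D * X ^ 2 + 1792 * D ^ 2 * X ∧ X = d * r ^ 2 := by
  have hD0 : (D : ℚ_[2]) ≠ 0 := by
    have : D ≠ 0 := by rintro rfl; norm_num at hD
    exact_mod_cast this
  have hdz : d ≠ 0 := by rintro rfl; exact hd (dvd_zero _)
  have hd0 : (d : ℚ_[2]) ≠ 0 := by exact_mod_cast hdz
  have c0 : PadicInt.toZModPow 3 ((1 + 336 * D + 28672 * D ^ 2 : ℤ) : ℤ_[2]) = 1 := by
    rw [map_intCast]
    push_cast
    have a1 : (336 : ZMod (2 ^ 3)) = 0 := by decide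
    have a2 : (28672 : ZMod (2 ^ 3)) = 0 := by decide
    rw [a1, a2]
    ring
  obtain ⟨n, hn⟩ := sq_res c0
  have hn' : (n : ℚ_[2]) ^ 2 = 1 + 336 * D + 28672 * D ^ 2 := by
    have := congrArg (fun z : ℤ_[2] => (z : ℚ_[2])) hn
    simp only [PadicInt.coe_pow, PadicInt.coe_intCast] at this
    rw [this]
    push_cast
    ring
  -- the root
  obtain ⟨B, hB, hBD⟩ : ∃ B : ℤ, B % 8 = 5 ∧ (B = 21 * D ∨ B = 21 * D - 4) := by
    rcases (by omega : D % 8 = 1 ∨ D % 8 = 5) with h | h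
    · exact ⟨21 * D, by omega, Or.inl rfl⟩
    · exact ⟨21 * D - 4, by omega, Or.inr rfl⟩
  obtain ⟨u, hu, hu3⟩ := root hB (c := 112 * D ^ 2) (by
    have : 112 * D ^ 2 = 8 * (14 * D ^ 2) := by ring
    omega)
  have hu' : (u : ℚ_[2]) ^ 2 + B * u + 112 * D ^ 2 = 0 := by
    have := congrArg (fun z : ℤ_[2] => (z : ℚ_[2])) hu
    simp only [PadicInt.coe_pow, PadicInt.coe_intCast, PadicInt.coe_add, PadicInt.coe_mul,
      PadicInt.coe_zero] at this
    push_cast at this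
    exact this
  have hu0 : (u : ℚ_[2]) ≠ 0 := by
    intro h
    have : u = 0 := Subtype.ext h
    rw [this, map_zero] at hu3
    exact absurd hu3 (by decide)
  -- points from the roots
  have key : ∀ x : ℚ_[2], x ^ 2 + B * x + 112 * D ^ 2 = 0 →
      ∃ Y : ℚ_[2], Y ^ 2 = (4 * x) ^ 3 + 84 * D * (4 * x) ^ 2 + 1792 * D ^ 2 * (4 * x) := by
    intro x hx
    rcases hBD with h | h
    · refine ⟨0, ?_⟩
      rw [h] at hx
      push_cast at hx
      linear_combination -(64 * x) * hx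
    · refine ⟨16 * x, ?_⟩
      rw [h] at hx
      push_cast at hx
      linear_combination -(64 * x) * hx
  have hd8 : d % 8 = 1 ∨ d % 8 = 3 ∨ d % 8 = 5 ∨ d % 8 = 7 := by omega
  rcases hd8 with h8 | h8 | h8 | h8
  · obtain ⟨w, hw⟩ := sq_res (t := ((d : ℤ) : ℤ_[2])) (by
      rw [map_intCast, cast8 h8]
      decide)
    have hw' : (w : ℚ_[2]) ^ 2 = d := by
      have := congrArg (fun z : ℤ_[2] => (z : ℚ_[2])) hw
      simpa only [PadicInt.coe_pow, PadicInt.coe_intCast] using this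
    have hw0 : (w : ℚ_[2]) ≠ 0 := by
      intro h
      rw [h, zero_pow two_ne_zero] at hw'
      exact hd0 hw'.symm
    refine ⟨1 / 4, n / 8, 1 / (2 * w), by norm_num, ?_, ?_⟩
    · rw [div_pow, hn']
      ring
    · rw [← hw']
      field_simp
      norm_num
  · obtain ⟨w, hw⟩ := sq_res (t := ((d : ℤ) : ℤ_[2]) * u) (by
      rw [map_mul, map_intCast, cast8 h8, hu3]
      decide)
    have hw' : (w : ℚ_[2]) ^ 2 = d * u := by
      have := congrArg (fun z : ℤ_[2] => (z : ℚ_[2])) hw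
      simpa only [PadicInt.coe_pow, PadicInt.coe_intCast, PadicInt.coe_mul] using this
    obtain ⟨Y, hY⟩ := key u hu'
    refine ⟨4 * u, Y, 2 * w / d, mul_ne_zero (by norm_num) hu0, hY, ?_⟩
    field_simp
    linear_combination (-4) * hw'
  · obtain ⟨w, hw⟩ := sq_res (t := 7 * (((d : ℤ) : ℤ_[2]) * u)) (by
      rw [map_mul, map_mul, map_ofNat, map_intCast, cast8 h8, hu3]
      decide)
    have hw' : (w : ℚ_[2]) ^ 2 = 7 * (d * u) := by
      have := congrArg (fun z : ℤ_[2] => (z : ℚ_[2])) hw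
      simp only [PadicInt.coe_pow, PadicInt.coe_intCast, PadicInt.coe_mul, coe7] at this
      exact this
    obtain ⟨Y, hY⟩ := key (112 * D ^ 2 / u) (by
      field_simp
      linear_combination (112 * (D : ℚ_[2]) ^ 2) * hu')
    refine ⟨4 * (112 * D ^ 2 / u), Y, 8 * D * w / (u * d), ?_, hY, ?_⟩
    · exact mul_ne_zero (by norm_num) (div_ne_zero (mul_ne_zero (by norm_num)
        (pow_ne_zero _ hD0)) hu0)
    · field_simp
      linear_combination (-64) * hw'
  · obtain ⟨w, hw⟩ := sq_res (t := 7 * ((d : ℤ) : ℤ_[2])) (by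
      rw [map_mul, map_ofNat, map_intCast, cast8 h8]
      decide)
    have hw' : (w : ℚ_[2]) ^ 2 = 7 * d := by
      have := congrArg (fun z : ℤ_[2] => (z : ℚ_[2])) hw
      simp only [PadicInt.coe_pow, PadicInt.coe_intCast, PadicInt.coe_mul, coe7] at this
      exact this
    refine ⟨7168 * D ^ 2, 3584 * D ^ 2 * n, 32 * D * w / d, ?_, ?_, ?_⟩
    · exact mul_ne_zero (by norm_num) (pow_ne_zero _ hD0)
    · rw [mul_pow, hn']
      ring
    · field_simp
      linear_combination (-1024) * hw'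

end Pool.Agent.N499.SL
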